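import Pool.Agent.H94.M4.FLK

/-!
(M4), module FLK, last part: the `j`-linear level set estimate.
-/

set_option autoImplicit false

namespace Pool.Agent.H94.M4

open MeasureTheory Set
open Pool.Agent.H83.G
open Pool.Agent.H94.T3 (V sh cont_sh cont_sh' lint_sh cs_sh norm_e e_add cont_e int_sh lint_sq)
open scoped ENNReal NNReal RealInnerProductSpace

private theorem pig {u : ℕ → ℂ} {S : ℂ} {H : ℝ} (h : HasSum u S) (hH : 0 < H) (hS : H ≤ ‖S‖) :
    ∃ n, H / 4 * (1 / 2) ^ n ≤ ‖u n‖ := by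
  by_contra hc
  push Not at hc
  have h1 : HasSum (fun n : ℕ => H / 4 * (1 / 2 : ℝ) ^ n) (H / 4 * 2) :=
    hasSum_geometric_two.mul_left _
  have h2 := tsum_of_norm_bounded h1 fun n => (hc n).le
  rw [h.tsum_eq] at h2
  linarith

/-- thresholds -/
noncomputable def lam (H R : ℝ) (n : ℕ) : ℝ :=
  H / 4 * (1 / 2) ^ n * (n.factorial : ℝ) / (2 * Real.pi * R) ^ n

private theorem lam_pos {H R : ℝ} (hH : 0 < H) (hR : 0 < R) (n : ℕ) : 0 < lam H R n := by
  unfold lam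
  have := Real.pi_pos
  positivity

private theorem norm_cf {m : ℕ} (z₀ z : Z m) (n : ℕ) {R : ℝ} (hz : ‖z - z₀‖ ≤ R) :
    ‖cf z₀ z n‖ ≤ (2 * Real.pi * R) ^ n / (n.factorial : ℝ) := by
  have h1 : |z.2.2 - z₀.2.2| ≤ R := by
    refine le_trans ?_ hz
    have h2 : ‖z - z₀‖ = max |(z - z₀).1| (max ‖(z - z₀).2.1‖ |(z - z₀).2.2|) := by
      rw [Prod.norm_def, Prod.norm_def]; rfl
    rw [h2]
    exact (le_max_right _ _).trans (le_max_right _ _)
  unfold cf
  rw [norm_div, norm_pow, norm_mul, norm_mul, norm_mul, Complex.norm_I, mul_one,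
    Complex.norm_real, Complex.norm_real, Complex.norm_natCast, Real.norm_eq_abs,
    Real.norm_eq_abs, abs_of_pos Real.pi_pos]
  have h3 : ‖(2 : ℂ)‖ = 2 := by simp
  rw [h3]
  have := Real.pi_pos
  gcongr

private theorem num1 {H R ρ D I : ℝ} (hH : 0 < H) (hR : 0 < R) (hρ : 0 < ρ) (hD : ρ * R ≤ D)
    (hI : 0 ≤ I) (n : ℕ) : (lam H R n)⁻¹ ^ 2 * (2 * ρ * (ρ ^ n) ^ 2 * I) ≤
      32 * Real.exp (8 * Real.pi * D) ^ 2 * (1 / 4) ^ n * (ρ * I / H ^ 2) := by
  have hπ := Real.pi_pos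
  have hD0 : 0 < D := lt_of_lt_of_le (by positivity) hD
  have h1 : (lam H R n)⁻¹ * ρ ^ n ≤ 4 / H * ((1 / 2) ^ n * Real.exp (8 * Real.pi * D)) := by
    have e1 : (lam H R n)⁻¹ * ρ ^ n = 4 / H * ((1 / 2) ^ n *
        ((8 * Real.pi * (ρ * R)) ^ n / (n.factorial : ℝ))) := by
      unfold lam
      have hf : (n.factorial : ℝ) ≠ 0 := by positivity
      rw [mul_pow (8 * Real.pi), mul_pow ρ, show (8 : ℝ) * Real.pi = 2 ^ 2 * (2 * Real.pi) by ring,
        mul_pow (2 ^ 2 : ℝ), mul_pow (2 * Real.pi) R]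
      have h2n : ((1 / 2 : ℝ)) ^ n = (2 ^ n)⁻¹ := by rw [one_div, inv_pow]
      rw [h2n, ← pow_mul, mul_comm 2 n, pow_mul (2 : ℝ) n 2]
      have : (2 : ℝ) ^ n ≠ 0 := by positivity
      field_simp
    rw [e1]
    have e2 : (8 * Real.pi * (ρ * R)) ^ n / (n.factorial : ℝ) ≤ Real.exp (8 * Real.pi * D) := by
      refine (Real.pow_div_factorial_le_exp _ (by positivity) n).trans ?_
      apply Real.exp_le_exp.2
      gcongr
    gcongr
  have h2 : 0 ≤ (lam H R n)⁻¹ * ρ ^ n := by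
    have := lam_pos hH hR n
    positivity
  calc (lam H R n)⁻¹ ^ 2 * (2 * ρ * (ρ ^ n) ^ 2 * I)
      = ((lam H R n)⁻¹ * ρ ^ n) ^ 2 * (2 * ρ * I) := by ring
    _ ≤ (4 / H * ((1 / 2) ^ n * Real.exp (8 * Real.pi * D))) ^ 2 * (2 * ρ * I) := by
        gcongr
    _ = 32 * Real.exp (8 * Real.pi * D) ^ 2 * ((1 / 2) ^ 2) ^ n * (ρ * I / H ^ 2) := by
        rw [← pow_mul, mul_comm 2 n, pow_mul]
        ring
    _ = _ := by norm_num

/-- FLK -/
theorem pf_FLK (hTVK : T_TVK) : T_FLK := by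
  classical
  intro m j K c₀ ε D hm hj hK hc₀ hε hD
  obtain ⟨C, hC, h⟩ := hTVK m j K c₀ ε hm hj hK hc₀ hε
  have hj1 : (0 : ℝ) < (j : ℝ) - 1 := by
    have : (2 : ℝ) ≤ j := by exact_mod_cast hj
    linarith
  set s : ℝ := 1 / ((j : ℝ) - 1) with hsdef
  have hs : 0 < s := by positivity
  set W : ℝ := 32 * Real.exp (8 * Real.pi * D) ^ 2 with hW
  have hW0 : 0 < W := by positivity
  set q : ℝ := (1 / 4 : ℝ) ^ s with hq
  have hq0 : 0 < q := by positivity
  have hq1 : q < 1 := Real.rpow_lt_one (by norm_num) (by norm_num) hs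
  have h1q : 0 < 1 - q := by linarith
  refine ⟨C * (W ^ s * (1 - q)⁻¹) ^ j, by positivity, ?_⟩
  intro R ρ H c G z₀ Y hR hρ hρR hH hc hG hsG hY hYz hYH
  have hR0 : 0 < R := by linarith
  have hSp : ∀ i, Sp (G i) (c i) (5 / (4 * K)) ρ := hsG
  -- choice of the moments
  have hn : ∀ z : Z m, ∀ i, ∃ n, z ∈ Y → lam H R n ≤ ‖V (gn (G i) ρ z₀ n) z‖ := by
    intro z i
    by_cases hz : z ∈ Y
    · obtain ⟨n, hn⟩ := pig (hasSum_gn (hG i) (hSp i) z₀ z) hH (hYH z hz i)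
      refine ⟨n, fun _ => ?_⟩
      rw [norm_mul] at hn
      have h2 := norm_cf z₀ z n (hYz z hz)
      have hπ := Real.pi_pos
      have h3 : 0 < (2 * Real.pi * R) ^ n := by positivity
      have hf : (0 : ℝ) < n.factorial := by positivity
      have h4 : H / 4 * (1 / 2) ^ n ≤
          (2 * Real.pi * R) ^ n / (n.factorial : ℝ) * ‖V (gn (G i) ρ z₀ n) z‖ :=
        hn.trans (mul_le_mul_of_nonneg_right h2 (norm_nonneg _))
      unfold lam
      rw [div_le_iff₀ h3]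
      have h5 : (2 * Real.pi * R) ^ n / (n.factorial : ℝ) * ‖V (gn (G i) ρ z₀ n) z‖ =
          ‖V (gn (G i) ρ z₀ n) z‖ * (2 * Real.pi * R) ^ n / (n.factorial : ℝ) := by ring
      rw [h5, le_div_iff₀ hf] at h4
      exact h4
    · exact ⟨0, fun h => absurd h hz⟩
  choose n hn using hn
  obtain ⟨M, hM⟩ : ∃ M, ∀ z ∈ Y, ∀ i, n z i < M := by
    refine ⟨(Y.sup fun z => Finset.univ.sup fun i => n z i) + 1, fun z hz i => ?_⟩
    rw [Nat.lt_succ_iff]
    exact (Finset.le_sup (f := fun i => n z i) (Finset.mem_univ i)).trans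
      (Finset.le_sup (f := fun z => Finset.univ.sup fun i => n z i) hz)
  set T : Finset (Fin j → ℕ) := Fintype.piFinset (fun _ => Finset.range M) with hT
  have hmaps : ∀ z ∈ Y, n z ∈ T := by
    intro z hz
    rw [hT, Fintype.mem_piFinset]
    intro i
    rw [Finset.mem_range]
    exact hM z hz i
  have hcard : (Y.card : ℝ) = ∑ ν ∈ T, ((Y.filter fun z => n z = ν).card : ℝ) := by
    exact_mod_cast Finset.card_eq_sum_card_fiberwise hmaps
  set P : Fin j → ℝ := fun i => ρ * (∫ ζ, ‖G i ζ‖ ^ 2) / H ^ 2 with hP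
  have hI0 : ∀ i, 0 ≤ ∫ ζ, ‖G i ζ‖ ^ 2 := fun i => integral_nonneg fun ζ => by positivity
  have hP0 : ∀ i, 0 ≤ P i := fun i => by
    have := hI0 i
    simp only [hP]
    positivity
  have hone : ∀ ν ∈ T, ((Y.filter fun z => n z = ν).card : ℝ) ≤
      C * R ^ ε * ∏ i, (W ^ s * q ^ ν i * P i ^ s) := by
    intro ν _
    have hmem : ∀ z ∈ Y.filter (fun z => n z = ν), z ∈ Y ∧ n z = ν := fun z hz =>
      Finset.mem_filter.1 hz
    refine (h R c (fun i ζ => (((lam H R (ν i))⁻¹ : ℝ) : ℂ) * gn (G i) ρ z₀ (ν i) ζ) z₀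
      (Y.filter fun z => n z = ν) hR hc
      (fun i => continuous_const.mul (cont_gn (hG i) (hSp i) z₀ (ν i))) ?_ ?_ ?_ ?_).trans ?_
    · intro i ζ hζ
      exact (supp_gn (hSp i) z₀ (ν i) ζ (right_ne_zero_of_mul hζ)).1
    · intro z hz z' hz' hne
      exact hY z (hmem z hz).1 z' (hmem z' hz').1 hne
    · intro z hz
      exact hYz z (hmem z hz).1
    · intro z hz i
      have h2 := hn z i (hmem z hz).1
      rw [(hmem z hz).2] at h2
      have h3 : V (fun ζ => (((lam H R (ν i))⁻¹ : ℝ) : ℂ) * gn (G i) ρ z₀ (ν i) ζ) z =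
          (((lam H R (ν i))⁻¹ : ℝ) : ℂ) * V (gn (G i) ρ z₀ (ν i)) z := by
        unfold V
        rw [← integral_const_mul]
        refine integral_congr_ae (Filter.Eventually.of_forall fun ζ => ?_)
        simp only
        ring
      have h4 := lam_pos hH hR0 (ν i)
      rw [h3, norm_mul, Complex.norm_real, Real.norm_eq_abs, abs_of_pos (inv_pos.2 h4)]
      rw [inv_mul_eq_div, one_le_div h4]
      exact h2
    · refine mul_le_mul_of_nonneg_left ?_ (by positivity)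
      refine Finset.prod_le_prod (fun i _ => Real.rpow_nonneg
        (integral_nonneg fun ζ => by positivity) _) fun i _ => ?_
      have h4 := lam_pos hH hR0 (ν i)
      have h5 : ∫ ζ, ‖(((lam H R (ν i))⁻¹ : ℝ) : ℂ) * gn (G i) ρ z₀ (ν i) ζ‖ ^ 2 ≤
          W * (1 / 4) ^ ν i * P i := by
        have h6 : ∀ ζ, ‖(((lam H R (ν i))⁻¹ : ℝ) : ℂ) * gn (G i) ρ z₀ (ν i) ζ‖ ^ 2 =
            (lam H R (ν i))⁻¹ ^ 2 * ‖gn (G i) ρ z₀ (ν i) ζ‖ ^ 2 := by
          intro ζ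
          rw [norm_mul, Complex.norm_real, Real.norm_eq_abs, abs_of_pos (inv_pos.2 h4), mul_pow]
        simp_rw [h6]
        rw [integral_const_mul]
        refine le_trans ?_ (num1 hH hR0 hρ hρR (hI0 i) (ν i))
        exact mul_le_mul_of_nonneg_left (l2_gn (hG i) hρ (hSp i) z₀ (ν i)) (by positivity)
      calc (∫ ζ, ‖(((lam H R (ν i))⁻¹ : ℝ) : ℂ) * gn (G i) ρ z₀ (ν i) ζ‖ ^ 2) ^ s
          ≤ (W * (1 / 4) ^ ν i * P i) ^ s :=
            Real.rpow_le_rpow (integral_nonneg fun ζ => by positivity) h5 hs.le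
        _ = W ^ s * q ^ ν i * P i ^ s := by
            rw [Real.mul_rpow (by positivity) (hP0 i), Real.mul_rpow hW0.le (by positivity), hq,
              ← Real.rpow_natCast, ← Real.rpow_natCast, ← Real.rpow_mul (by norm_num),
              ← Real.rpow_mul (by norm_num), mul_comm s]
  have hgeo : ∑ ν ∈ T, ∏ i, q ^ ν i ≤ ((1 - q)⁻¹) ^ j := by
    have e1 : ∑ ν ∈ T, ∏ i, q ^ ν i = ∏ _i : Fin j, ∑ k ∈ Finset.range M, q ^ k := by
      rw [Finset.prod_univ_sum]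
    rw [e1, Finset.prod_const, Finset.card_univ, Fintype.card_fin]
    have e2 : ∑ k ∈ Finset.range M, q ^ k ≤ (1 - q)⁻¹ := by
      have := hasSum_geometric_of_lt_one hq0.le hq1
      exact sum_le_hasSum _ (fun k _ => by positivity) this
    exact pow_le_pow_left₀ (Finset.sum_nonneg fun k _ => by positivity) e2 j
  rw [hcard]
  calc ∑ ν ∈ T, ((Y.filter fun z => n z = ν).card : ℝ)
      ≤ ∑ ν ∈ T, C * R ^ ε * ∏ i, (W ^ s * q ^ ν i * P i ^ s) := Finset.sum_le_sum hone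
    _ = C * R ^ ε * ((W ^ s) ^ j * (∏ i, P i ^ s) * ∑ ν ∈ T, ∏ i, q ^ ν i) := by
        rw [Finset.mul_sum, Finset.mul_sum]
        refine Finset.sum_congr rfl fun ν _ => ?_
        rw [Finset.prod_mul_distrib, Finset.prod_mul_distrib, Finset.prod_const,
          Finset.card_univ, Fintype.card_fin]
        ring
    _ ≤ C * R ^ ε * ((W ^ s) ^ j * (∏ i, P i ^ s) * ((1 - q)⁻¹) ^ j) := by
        have h6 : 0 ≤ ∏ i, P i ^ s := Finset.prod_nonneg fun i _ => Real.rpow_nonneg (hP0 i) _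
        gcongr
    _ = C * (W ^ s * (1 - q)⁻¹) ^ j * R ^ ε * ∏ i, P i ^ s := by
        rw [mul_pow]
        ring

end Pool.Agent.H94.M4
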