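import Pool.Agent.H94.M4.Targets

/-!
(M4), module TEN42: the two-ends case for `m = 2`, `x ≥ 4/3` (dimension 3).
-/

set_option autoImplicit false

namespace Pool.Agent.H94.M4

open Pool.Agent.H83.G Pool.Agent.H22.G4 Pool.Agent.H94.G4 MeasureTheory Set
open scoped ENNReal NNReal RealInnerProductSpace

open Classical in
theorem xq_XK (hC4Q : T_C4Q) (hSUQ : T_SUQ) (hLWX : T_LWX) (m : ℕ) : T_XQ 4 m (XK m) := by
  intro L β Ψ ψ K c₀ δ b₀ B hm hβ hΨ hK hc₀ hδ hδ1 hb₀ hB N hN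
  obtain ⟨Ξ, χ, hχ⟩ := hLWX m
  obtain ⟨C₁, hC₁, h1⟩ := hC4Q m L β Ψ Ξ ψ χ K c₀ δ b₀ B hm hβ hΨ hχ hK hc₀ hδ hδ1 hb₀ hB N hN
  obtain ⟨C₂, hC₂, h2⟩ := hSUQ m L N β Ψ ψ δ hβ hΨ hδ hδ1 hN
  refine ⟨C₁ + C₂, by linarith, ?_⟩
  intro κ R r A H G c S a b M QQ l k X hκ hκ1 hR hCR hA hH hbA hc hsep hind hab hG hX hne hS hcS
    hb hM hF L' hL'
  have hR0 : 0 < R := by linarith
  have hlo : 0 ≤ lo m * δ := by unfold lo; positivity
  have hL0 : 0 ≤ L' := le_trans (by positivity) hL'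
  refine ⟨fun _ => ?_, ?_⟩
  · have h3 := h1 κ R r A H G c S a b M QQ l k X hκ hκ1 hR (by linarith) hA hH hbA ⟨hc, hind⟩ hab
      hG hX hS hcS hb hM hF
    refine h3.trans ?_
    have h4 : 0 ≤ ∏ i, (M i * b i * a i ^ 2 * R ^ ((m : ℝ) / 2)) ^ (1 / 3 : ℝ) := by
      refine Finset.prod_nonneg fun i _ => ?_
      obtain ⟨q1, q2, q3⟩ := hab i
      have : 0 < b i := by linarith
      positivity
    have h5 : C₁ * R ^ (2 * lo m * δ) ≤ L' := by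
      refine le_trans ?_ hL'
      gcongr
      linarith
    gcongr
  · obtain ⟨z, hz⟩ := hne
    have h3 := hF 0 z hz
    have h4 := h2 κ R A (G 0) (SB QQ R r δ (l 0) (k 0) (S 0) (bl R r (cb (Real.sqrt R) z))) z hκ
      hκ1 hR hA (hG 0) (fun W hW => (hS 0 W (Pool.Agent.H83.G.TEN.mem_SB.1 hW).1).1)
    refine h3.trans (h4.trans ?_)
    have h5 : C₂ * R ^ (lo m * δ) ≤ L' := by
      refine le_trans ?_ hL'
      have h6 : R ^ (lo m * δ) ≤ R ^ (2 * lo m * δ) :=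
        Real.rpow_le_rpow_of_exponent_le hR (by linarith)
      have h7 : 0 ≤ R ^ (lo m * δ) := by positivity
      calc C₂ * R ^ (lo m * δ) ≤ C₂ * R ^ (2 * lo m * δ) := by gcongr
        _ ≤ (C₁ + C₂) * R ^ (2 * lo m * δ) := by gcongr; linarith
    gcongr

/-- TEN42: four functions, `m = 2`, `4/3 ≤ x ≤ 2` -/
theorem pf_TEN42 (hPG4 : Pool.Agent.H22.G.T_PG4) (hHG2 : Pool.Agent.H22.G.T_HG2)
    (hMU : Pool.Agent.H22.G.T_MU) (hHB : Pool.Agent.H22.G.T_HB)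
    (hCBN : T_CBN) (hTE1 : T_TE1x) (hTE2 : T_TE2) (hTEJ : T_TEJ) (hTLS : T_TLS)
    (hAMU : T_AMU) (hALGK : T_ALGKs) (hC4Q : T_C4Q) (hSUQ : T_SUQ) (hLWX : T_LWX) :
    Pool.Agent.H82.G4.T_TEN42 := fun L x hx hx2 =>
  tenq_of_tenj 2 L x (pf_TENJ hPG4 hHG2 hMU hHB hCBN hTE1 hTE2 hTEJ hTLS hAMU 4 2 L x
    (XK 2) (by norm_num) (by norm_num) (xq_XK hC4Q hSUQ hLWX 2)
    (algX_of_algK 2 x (hALGK.2 x hx (by linarith))))

end Pool.Agent.H94.M4
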