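import Pool.Agent.H82.G4.Chain4
import Pool.Agent.H22.G4.ALGK
import Pool.Agent.H69.M4.TRK
import Pool.Agent.H69.T3.CHV
import Pool.Agent.H84.KL.MLR
import Pool.Agent.H96.M4.TVK
import Pool.Agent.H96.M4.C4Q
import Pool.Agent.H33.M4.SUQ
import Pool.Agent.H94.M4.FLM
import Pool.Agent.H94.M4.TEN42

/-! Theorem G (MP_ee74d2_an), the rows of the case `m = 2`: the chain. -/

set_option autoImplicit false

namespace Pool.Agent.H94.M4.Chain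

open Pool.Agent.H83.G Pool.Agent.H83.G.Chain
open Pool.Agent.H82.G4 Pool.Agent.H82.G4.Chain

theorem k_TRK : T_TRK := Pool.Agent.H69.M4.TRK.pf_TRK

theorem k_TVK : T_TVK :=
  Pool.Agent.H96.M4.TVK.pf_TVK Pool.Agent.H84.KL.mlr_main Pool.Agent.H69.T3.pf_CHV k_TRK

theorem k_FLK : T_FLK := pf_FLK k_TVK

theorem k_SUQ : T_SUQ :=
  Pool.Agent.H33.M4.SUQ.pf_SUQ m_PTW m_TLS m_AMU m_PUS Pool.Agent.H22.G.pf_HG2

theorem k_C4Q : T_C4Q :=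
  Pool.Agent.H96.M4.C4Q.pf_C4Q k_FLK m_PKT k_GBE m_TLS m_CBN m_PLN m_AMU

theorem k_TEN42 : T_TEN42 :=
  pf_TEN42 Pool.Agent.H22.G.pf_PG4 Pool.Agent.H22.G.pf_HG2 Pool.Agent.H22.G.pf_MU
    Pool.Agent.H22.G.pf_HB m_CBN k_TE1 m_TE2 k_TEJ m_TLS m_AMU Pool.Agent.H22.G4.pf_ALGK
    k_C4Q k_SUQ m_LWX

end Pool.Agent.H94.M4.Chain
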