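import Pool.Agent.H94.M4.Targets

/-!
(M4), module FLK, first part: Taylor expansion in the fibre variable.
-/

set_option autoImplicit false

namespace Pool.Agent.H94.M4

open MeasureTheory Set
open Pool.Agent.H83.G
open Pool.Agent.H94.T3 (V sh cont_sh cont_sh' lint_sh cs_sh norm_e e_add cont_e int_sh lint_sq)
open scoped ENNReal NNReal RealInnerProductSpace

/-- moments of the fibres -/
noncomputable def gn {m : ℕ} (G : Z m → ℂ) (ρ : ℝ) (z₀ : Z m) (n : ℕ) (ζ : ℝ × E m) : ℂ :=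
  ∫ τ in Icc (-ρ) ρ, ((τ : ℂ) ^ n * e (z₀.2.2 * τ)) * sh G τ ζ

/-- the hypothesis on the support -/
def Sp {m : ℕ} (G : Z m → ℂ) (c : E m) (D ρ : ℝ) : Prop :=
  ∀ ζ, G ζ ≠ 0 → 1 / 4 ≤ ζ.1 ∧ ζ.1 ≤ 8 ∧ ‖ζ.1⁻¹ • ζ.2.1 - c‖ ≤ D ∧
    |ζ.2.2 - ‖ζ.2.1‖ ^ 2 / ζ.1| ≤ ρ

theorem cont_gn {m : ℕ} {G : Z m → ℂ} (hG : TC G) {c : E m} {D ρ : ℝ} (hs : Sp G c D ρ)
    (z₀ : Z m) (n : ℕ) : Continuous (gn G ρ z₀ n) := by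
  have h0 : ∀ ζ, G ζ ≠ 0 → 1 / 4 ≤ ζ.1 := fun ζ hζ => (hs ζ hζ).1
  unfold gn
  refine continuous_parametric_integral_of_continuous (f := fun (ζ : ℝ × E m) (τ : ℝ) =>
    ((τ : ℂ) ^ n * e (z₀.2.2 * τ)) * sh G τ ζ) ?_ isCompact_Icc
  have h1 := cont_sh hG h0
  have h2 : Continuous fun p : (ℝ × E m) × ℝ => ((p.2 : ℂ) ^ n * e (z₀.2.2 * p.2)) := by
    have h3 : Continuous fun p : (ℝ × E m) × ℝ => e (z₀.2.2 * p.2) :=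
      cont_e.comp (by fun_prop)
    fun_prop
  exact h2.mul h1

theorem supp_gn {m : ℕ} {G : Z m → ℂ} {c : E m} {D ρ : ℝ} (hs : Sp G c D ρ) (z₀ : Z m)
    (n : ℕ) (ζ : ℝ × E m) (hζ : gn G ρ z₀ n ζ ≠ 0) :
    (1 / 4 ≤ ζ.1 ∧ ζ.1 ≤ 8 ∧ ‖ζ.1⁻¹ • ζ.2 - c‖ ≤ D) ∧
      ‖ζ‖ ≤ max (max 8 (8 * (‖c‖ + D))) ρ := by
  have h1 : ∃ τ, sh G τ ζ ≠ 0 := by
    by_contra h
    push Not at h
    refine hζ ?_
    unfold gn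
    simp [h]
  obtain ⟨τ, hτ⟩ := h1
  have h2 := hs _ hτ
  refine ⟨⟨h2.1, h2.2.1, h2.2.2.1⟩, ?_⟩
  have h3 := (cs_sh hs (ζ, τ) hτ).1
  rw [Prod.norm_def] at h3
  exact (le_max_left _ _).trans h3

theorem sh_zero {m : ℕ} {G : Z m → ℂ} {c : E m} {D ρ : ℝ} (hs : Sp G c D ρ) (τ : ℝ)
    (ζ : ℝ × E m) (hτ : τ ∉ Icc (-ρ) ρ) : sh G τ ζ = 0 := by
  by_contra hne
  exact hτ (abs_le.1 (cs_sh hs (ζ, τ) hne).2)

theorem cs_gn {m : ℕ} {G : Z m → ℂ} {c : E m} {D ρ : ℝ} (hs : Sp G c D ρ) (z₀ : Z m)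
    (n : ℕ) : HasCompactSupport (gn G ρ z₀ n) := by
  refine HasCompactSupport.of_support_subset_isCompact
    (isCompact_closedBall (0 : ℝ × E m) (max (max 8 (8 * (‖c‖ + D))) ρ)) fun p hp => ?_
  rw [mem_closedBall_zero_iff]
  exact (supp_gn hs z₀ n p hp).2

private theorem cs1 (μ : Measure ℝ) (f : ℝ → ℝ≥0∞) (hf : Measurable f) :
    (∫⁻ τ, f τ ∂μ) ^ 2 ≤ μ univ * ∫⁻ τ, f τ ^ 2 ∂μ := by
  have h1 := ENNReal.lintegral_mul_le_Lp_mul_Lq μ (by constructor <;> norm_num :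
    Real.HolderConjugate 2 2) (f := fun _ => 1) (g := f) measurable_const.aemeasurable
    hf.aemeasurable
  simp only [Pi.mul_apply, one_mul, lintegral_const, ENNReal.rpow_two, one_pow] at h1
  calc (∫⁻ τ, f τ ∂μ) ^ 2 ≤ ((μ univ) ^ (1 / 2 : ℝ) * (∫⁻ τ, f τ ^ 2 ∂μ) ^ (1 / 2 : ℝ)) ^ 2 :=
        pow_le_pow_left₀ zero_le h1 2
    _ = _ := by
        rw [mul_pow, ← ENNReal.rpow_two, ← ENNReal.rpow_two, ← ENNReal.rpow_mul,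
          ← ENNReal.rpow_mul]
        norm_num

theorem l2_gn {m : ℕ} {G : Z m → ℂ} (hG : TC G) {c : E m} {D ρ : ℝ} (hρ : 0 < ρ)
    (hs : Sp G c D ρ) (z₀ : Z m) (n : ℕ) :
    ∫ ζ, ‖gn G ρ z₀ n ζ‖ ^ 2 ≤ 2 * ρ * (ρ ^ n) ^ 2 * ∫ ζ, ‖G ζ‖ ^ 2 := by
  have h0 : ∀ ζ, G ζ ≠ 0 → 1 / 4 ≤ ζ.1 := fun ζ hζ => (hs ζ hζ).1
  have hmeas : Measurable (fun p : (ℝ × E m) × ℝ => ‖sh G p.2 p.1‖ₑ ^ 2) :=
    ((cont_sh hG h0).measurable.enorm).pow_const 2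
  have h1 : ∀ ζ, ‖gn G ρ z₀ n ζ‖ₑ ^ 2 ≤
      ENNReal.ofReal (2 * ρ * (ρ ^ n) ^ 2) * ∫⁻ τ, ‖sh G τ ζ‖ₑ ^ 2 := by
    intro ζ
    have a1 : ‖gn G ρ z₀ n ζ‖ₑ ≤ ∫⁻ τ in Icc (-ρ) ρ, ENNReal.ofReal (ρ ^ n) * ‖sh G τ ζ‖ₑ := by
      unfold gn
      refine (enorm_integral_le_lintegral_enorm _).trans ?_
      refine setLIntegral_mono' measurableSet_Icc fun τ hτ => ?_
      rw [enorm_mul]
      refine mul_le_mul_left ?_ _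
      rw [← ofReal_norm, norm_mul, norm_e, mul_one, norm_pow, Complex.norm_real, Real.norm_eq_abs]
      exact ENNReal.ofReal_le_ofReal (pow_le_pow_left₀ (abs_nonneg _) (abs_le.2 hτ) n)
    have hm1 : Measurable fun τ : ℝ => ‖sh G τ ζ‖ₑ :=
      (((cont_sh hG h0).comp (Continuous.prodMk_right ζ)).measurable).enorm
    have a2 := cs1 (volume.restrict (Icc (-ρ) ρ)) (fun τ => ENNReal.ofReal (ρ ^ n) * ‖sh G τ ζ‖ₑ)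
      (hm1.const_mul _)
    have a3 : (volume.restrict (Icc (-ρ) ρ)) univ = ENNReal.ofReal (2 * ρ) := by
      rw [Measure.restrict_apply_univ, Real.volume_Icc]
      congr 1; ring
    rw [a3] at a2
    calc ‖gn G ρ z₀ n ζ‖ₑ ^ 2
        ≤ (∫⁻ τ in Icc (-ρ) ρ, ENNReal.ofReal (ρ ^ n) * ‖sh G τ ζ‖ₑ) ^ 2 := by gcongr
      _ ≤ ENNReal.ofReal (2 * ρ) *
          ∫⁻ τ in Icc (-ρ) ρ, (ENNReal.ofReal (ρ ^ n) * ‖sh G τ ζ‖ₑ) ^ 2 := a2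
      _ ≤ ENNReal.ofReal (2 * ρ) * ∫⁻ τ, (ENNReal.ofReal (ρ ^ n) * ‖sh G τ ζ‖ₑ) ^ 2 := by
          refine mul_le_mul_right ?_ _
          exact setLIntegral_le_lintegral _ _
      _ = ENNReal.ofReal (2 * ρ) * (ENNReal.ofReal (ρ ^ n) ^ 2 * ∫⁻ τ, ‖sh G τ ζ‖ₑ ^ 2) := by
          congr 1
          rw [← lintegral_const_mul _ (hm1.pow_const 2)]
          refine lintegral_congr fun τ => ?_
          rw [mul_pow]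
      _ = _ := by
          rw [← mul_assoc, ← ENNReal.ofReal_pow (by positivity), ← ENNReal.ofReal_mul (by positivity)]
  have h2 : ∫⁻ ζ, ‖gn G ρ z₀ n ζ‖ₑ ^ 2 ≤ ENNReal.ofReal (2 * ρ * (ρ ^ n) ^ 2) *
      ∫⁻ ζ, ‖G ζ‖ₑ ^ 2 := by
    calc ∫⁻ ζ, ‖gn G ρ z₀ n ζ‖ₑ ^ 2
        ≤ ∫⁻ ζ, ENNReal.ofReal (2 * ρ * (ρ ^ n) ^ 2) * ∫⁻ τ, ‖sh G τ ζ‖ₑ ^ 2 := lintegral_mono h1
      _ = ENNReal.ofReal (2 * ρ * (ρ ^ n) ^ 2) * ∫⁻ ζ, ∫⁻ τ, ‖sh G τ ζ‖ₑ ^ 2 := by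
          rw [lintegral_const_mul _ (Measurable.lintegral_prod_right' hmeas)]
      _ = ENNReal.ofReal (2 * ρ * (ρ ^ n) ^ 2) * ∫⁻ ζ, ‖G ζ‖ₑ ^ 2 := by
          congr 1
          rw [lintegral_lintegral_swap hmeas.aemeasurable]
          exact (lint_sh (fun ζ => ‖G ζ‖ₑ ^ 2)
            ((hG.1.continuous.measurable.enorm).pow_const 2)).symm
  rw [lint_sq volume _ (cont_gn hG hs z₀ n) (cs_gn hs z₀ n),
    lint_sq volume _ hG.1.continuous hG.2, ← ENNReal.ofReal_mul (by positivity)] at h2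
  exact (ENNReal.ofReal_le_ofReal_iff (mul_nonneg (by positivity)
    (integral_nonneg fun ζ => by positivity))).1 h2

end Pool.Agent.H94.M4
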