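import Pool.Agent.H94.M4.FLA

/-!
(M4), module FLK: functions with frequencies in a neighbourhood of the cone, `j`-linear level set
estimate by Taylor expansion in the fibre variable.
-/

set_option autoImplicit false

namespace Pool.Agent.H94.M4

open MeasureTheory Set
open Pool.Agent.H83.G
open Pool.Agent.H94.T3 (V sh cont_sh cont_sh' lint_sh cs_sh norm_e e_add cont_e int_sh lint_sq)
open scoped ENNReal NNReal RealInnerProductSpace

/-- the coefficients of the expansion -/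
noncomputable def cf {m : ℕ} (z₀ z : Z m) (n : ℕ) : ℂ :=
  (2 * Real.pi * ((z.2.2 - z₀.2.2 : ℝ) : ℂ) * Complex.I) ^ n / (n.factorial : ℂ)

private theorem cont_ph' {m : ℕ} {G : Z m → ℂ} (hG : TC G) (h0 : ∀ ζ, G ζ ≠ 0 → 1 / 4 ≤ ζ.1)
    (z : Z m) : Continuous (fun q : (ℝ × E m) × ℝ =>
      e (z.1 * q.1.1 + ⟪z.2.1, q.1.2⟫ + z.2.2 * (‖q.1.2‖ ^ 2 / q.1.1)) * sh G q.2 q.1) := by
  rw [continuous_iff_continuousAt]
  intro p
  by_cases hp : p.1.1 < 1 / 4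
  · have hU : {q : (ℝ × E m) × ℝ | q.1.1 < 1 / 4} ∈ nhds p :=
      (isOpen_lt (by fun_prop) continuous_const).mem_nhds hp
    have h1 : (fun q : (ℝ × E m) × ℝ =>
      e (z.1 * q.1.1 + ⟪z.2.1, q.1.2⟫ + z.2.2 * (‖q.1.2‖ ^ 2 / q.1.1)) * sh G q.2 q.1) =ᶠ[nhds p]
        fun _ => 0 := by
      filter_upwards [hU] with q hq
      have : sh G q.2 q.1 = 0 := by
        by_contra h
        exact absurd (h0 _ h) (not_le.2 hq)
      rw [this, mul_zero]
    exact (continuousAt_congr h1).2 continuousAt_const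
  · have hp' : p.1.1 ≠ 0 := by
      intro h
      rw [h] at hp
      norm_num at hp
    refine ContinuousAt.mul ?_ (cont_sh hG h0).continuousAt
    refine ContinuousAt.comp (g := e) cont_e.continuousAt ?_
    have h1 : ContinuousAt (fun q : (ℝ × E m) × ℝ => ‖q.1.2‖ ^ 2 / q.1.1) p :=
      ContinuousAt.div (by fun_prop) (by fun_prop) hp'
    have h2 : ContinuousAt (fun q : (ℝ × E m) × ℝ => z.1 * q.1.1 + ⟪z.2.1, q.1.2⟫) p := by
      fun_prop
    exact h2.add (continuousAt_const.mul h1)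

/-- the integrand on the product -/
theorem int_prod {m : ℕ} {G : Z m → ℂ} (hG : TC G) {c : E m} {D ρ : ℝ}
    (hs : Sp G c D ρ) (z₀ z : Z m) (n : ℕ) :
    Integrable (fun q : (ℝ × E m) × ℝ => ((q.2 : ℂ) ^ n * e (z₀.2.2 * q.2)) *
      (e (z.1 * q.1.1 + ⟪z.2.1, q.1.2⟫ + z.2.2 * (‖q.1.2‖ ^ 2 / q.1.1)) * sh G q.2 q.1))
      ((volume : Measure (ℝ × E m)).prod (volume : Measure ℝ)) := by
  have h0 : ∀ ζ, G ζ ≠ 0 → 1 / 4 ≤ ζ.1 := fun ζ hζ => (hs ζ hζ).1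
  have h2 : Continuous fun p : (ℝ × E m) × ℝ => ((p.2 : ℂ) ^ n * e (z₀.2.2 * p.2)) := by
    have h3 : Continuous fun p : (ℝ × E m) × ℝ => e (z₀.2.2 * p.2) :=
      cont_e.comp (by fun_prop)
    fun_prop
  refine (h2.mul (cont_ph' hG h0 z)).integrable_of_hasCompactSupport ?_
  refine HasCompactSupport.of_support_subset_isCompact
    (isCompact_closedBall (0 : (ℝ × E m) × ℝ) (max (max 8 (8 * (‖c‖ + D))) ρ)) fun q hq => ?_
  rw [mem_closedBall_zero_iff]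
  exact (cs_sh hs q (fun h => hq (by simp [h]))).1

theorem V_gn {m : ℕ} {G : Z m → ℂ} (hG : TC G) {c : E m} {D ρ : ℝ}
    (hs : Sp G c D ρ) (z₀ z : Z m) (n : ℕ) :
    V (gn G ρ z₀ n) z = ∫ τ : ℝ, ((τ : ℂ) ^ n * e (z₀.2.2 * τ)) * V (sh G τ) z := by
  have h1 : ∀ ζ : ℝ × E m,
      e (z.1 * ζ.1 + ⟪z.2.1, ζ.2⟫ + z.2.2 * (‖ζ.2‖ ^ 2 / ζ.1)) * gn G ρ z₀ n ζ =
      ∫ τ : ℝ, ((τ : ℂ) ^ n * e (z₀.2.2 * τ)) *
        (e (z.1 * ζ.1 + ⟪z.2.1, ζ.2⟫ + z.2.2 * (‖ζ.2‖ ^ 2 / ζ.1)) * sh G τ ζ) := by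
    intro ζ
    unfold gn
    rw [← integral_const_mul]
    have h2 : ∫ τ : ℝ, ((τ : ℂ) ^ n * e (z₀.2.2 * τ)) *
        (e (z.1 * ζ.1 + ⟪z.2.1, ζ.2⟫ + z.2.2 * (‖ζ.2‖ ^ 2 / ζ.1)) * sh G τ ζ) =
      ∫ τ in Icc (-ρ) ρ, ((τ : ℂ) ^ n * e (z₀.2.2 * τ)) *
        (e (z.1 * ζ.1 + ⟪z.2.1, ζ.2⟫ + z.2.2 * (‖ζ.2‖ ^ 2 / ζ.1)) * sh G τ ζ) := by
      refine (setIntegral_eq_integral_of_forall_compl_eq_zero fun τ hτ => ?_).symm
      rw [sh_zero hs τ ζ hτ, mul_zero, mul_zero]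
    rw [h2]
    refine setIntegral_congr_fun measurableSet_Icc fun τ _ => ?_
    ring
  have h3 : V (gn G ρ z₀ n) z = ∫ ζ : ℝ × E m, ∫ τ : ℝ, ((τ : ℂ) ^ n * e (z₀.2.2 * τ)) *
        (e (z.1 * ζ.1 + ⟪z.2.1, ζ.2⟫ + z.2.2 * (‖ζ.2‖ ^ 2 / ζ.1)) * sh G τ ζ) := by
    unfold V
    exact integral_congr_ae (Filter.Eventually.of_forall h1)
  rw [h3, integral_integral_swap (int_prod hG hs z₀ z n)]
  refine integral_congr_ae (Filter.Eventually.of_forall fun τ => ?_)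
  simp only
  unfold V
  rw [← integral_const_mul]

/-- the expansion -/
theorem hasSum_gn {m : ℕ} {G : Z m → ℂ} (hG : TC G) {c : E m} {D ρ : ℝ}
    (hs : Sp G c D ρ) (z₀ z : Z m) :
    HasSum (fun n => cf z₀ z n * V (gn G ρ z₀ n) z) (TF G z) := by
  set x : ℂ := 2 * Real.pi * ((z.2.2 - z₀.2.2 : ℝ) : ℂ) * Complex.I with hx
  set F : ℕ → ℝ → ℂ := fun n τ => (x ^ n / (n.factorial : ℂ)) *
    (((τ : ℂ) ^ n * e (z₀.2.2 * τ)) * V (sh G τ) z) with hF
  have hint : ∀ n, Integrable (fun τ : ℝ => ((τ : ℂ) ^ n * e (z₀.2.2 * τ)) * V (sh G τ) z) := by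
    intro n
    have h1 := (int_prod hG hs z₀ z n).integral_prod_right
    refine h1.congr (Filter.Eventually.of_forall fun τ => ?_)
    simp only
    unfold V
    rw [← integral_const_mul]
  have hFi : ∀ n, Integrable (F n) := fun n => (hint n).const_mul _
  have hV0 : ∀ τ, τ ∉ Icc (-ρ) ρ → V (sh G τ) z = 0 := by
    intro τ hτ
    unfold V
    simp [sh_zero hs τ _ hτ]
  have hφ : Integrable fun τ : ℝ => ‖V (sh G τ) z‖ := by
    have h1 := (hint 0).norm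
    refine h1.congr (Filter.Eventually.of_forall fun τ => ?_)
    simp only [pow_zero, one_mul, norm_mul, norm_e]
  have hb : ∀ n, ∫ τ, ‖F n τ‖ ≤ ((‖x‖ * ρ) ^ n / (n.factorial : ℝ)) * ∫ τ, ‖V (sh G τ) z‖ := by
    intro n
    rw [← integral_const_mul]
    refine integral_mono (hFi n).norm (hφ.const_mul _) fun τ => ?_
    simp only [hF]
    by_cases hτ : τ ∈ Icc (-ρ) ρ
    · rw [norm_mul, norm_mul, norm_mul, norm_e, mul_one, norm_div, norm_pow, norm_pow,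
        Complex.norm_real, Real.norm_eq_abs, Complex.norm_natCast, mul_pow]
      have h1 : |τ| ^ n ≤ ρ ^ n := pow_le_pow_left₀ (abs_nonneg _) (abs_le.2 hτ) n
      have h2 : 0 ≤ ‖V (sh G τ) z‖ := norm_nonneg _
      have h3 : 0 ≤ ‖x‖ ^ n / (n.factorial : ℝ) := by positivity
      calc ‖x‖ ^ n / (n.factorial : ℝ) * (|τ| ^ n * ‖V (sh G τ) z‖)
          ≤ ‖x‖ ^ n / (n.factorial : ℝ) * (ρ ^ n * ‖V (sh G τ) z‖) := by gcongr
        _ = _ := by ring
    · rw [hV0 τ hτ]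
      simp
  have hsum : Summable fun n => ∫ τ, ‖F n τ‖ := by
    refine Summable.of_nonneg_of_le (fun n => integral_nonneg fun τ => norm_nonneg _) hb ?_
    exact (Real.summable_pow_div_factorial (‖x‖ * ρ)).mul_right _
  have h1 := hasSum_integral_of_summable_integral_norm hFi hsum
  have h2 : ∫ τ, ∑' n, F n τ = TF G z := by
    rw [int_sh hG hs z]
    refine integral_congr_ae (Filter.Eventually.of_forall fun τ => ?_)
    simp only [hF]
    have h3 : HasSum (fun n : ℕ => (x ^ n / (n.factorial : ℂ)) *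
        (((τ : ℂ) ^ n * e (z₀.2.2 * τ)) * V (sh G τ) z))
        (Complex.exp (x * τ) * (e (z₀.2.2 * τ) * V (sh G τ) z)) := by
      have h4 := NormedSpace.expSeries_div_hasSum_exp (𝔸 := ℂ) (x * τ)
      rw [← Complex.exp_eq_exp_ℂ] at h4
      have h5 := h4.mul_right (e (z₀.2.2 * τ) * V (sh G τ) z)
      refine h5.congr_fun ?_
      intro n
      rw [mul_pow]
      ring
    rw [h3.tsum_eq, ← mul_assoc]
    congr 1
    have h6 : Complex.exp (x * τ) = e ((z.2.2 - z₀.2.2) * τ) := by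
      unfold e
      congr 1
      rw [hx]
      push_cast
      ring
    rw [h6, ← e_add]
    congr 1
    ring
  rw [h2] at h1
  refine h1.congr_fun ?_
  intro n
  simp only [hF]
  rw [integral_const_mul, V_gn hG hs z₀ z n]
  rfl

end Pool.Agent.H94.M4
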