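import Pool.Agent.H81.G4.FinAll
import Pool.Agent.H82.G4.Fin4
import Pool.Agent.H94.M4.Chain

/-!
Theorem G (MP_ee74d2_an): Q1 for every dimension `d ≥ 3` and `p ≥ 2 + 8/(3(d - 1))`.
-/

set_option autoImplicit false

namespace Pool.Agent.H94.M4.Final

/-- Q1, `n = d - 1 ≥ 2` -/
theorem q1 {n : ℕ} (hn : 2 ≤ n) {p : ℝ} (hp : 2 + 8 / (3 * (n : ℝ)) ≤ p) :
    Pool.Agent.H81.GT.Q1at n p :=
  Pool.Agent.H81.G4.q1_ge3 Pool.Agent.H82.G4.Fin4.k_MAIN Pool.Agent.H94.M4.Chain.k_TEN42 hn hp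

end Pool.Agent.H94.M4.Final
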