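import Pool.Agent.H94.G4.TenJ
import Pool.Agent.H94.T3.FIB

/-!
Theorem G (MP_ee74d2_an), `k`-linear restriction in the cubes of side `R^{1/2}` (level set forms):
targets. The four-linear case is used for `m = 2` (dimension 3).
-/

set_option autoImplicit false

namespace Pool.Agent.H94.M4

open MeasureTheory Set
open Pool.Agent.H83.G
open Pool.Agent.H22.G4 (nv Ind)
open Pool.Agent.H94.T3 (V Gam T_CHV)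
open scoped ENNReal NNReal RealInnerProductSpace

/-- admissible centres -/
def CJ {m j : ℕ} (K c₀ : ℝ) (c : Fin j → E m) : Prop :=
  (∀ i, ‖c i‖ ≤ 4 * m + 4) ∧ ∀ η : Fin j → E m, (∀ i, ‖η i - c i‖ ≤ 2 / K) → Ind c₀ η

/-- TRK: caps with independent null covectors are transversal -/
def T_TRK : Prop := ∀ (m j : ℕ) (ρ c₀ : ℝ) (c : Fin j → E m), 0 ≤ ρ → 0 < c₀ →
  (∀ η : Fin j → E m, (∀ i, ‖η i - c i‖ ≤ ρ) → Ind c₀ η) →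
  (∀ i, IsCompact (Gam (c i) ρ)) ∧ (∀ i, (0 : Pool.Agent.H82.KL.EE (m + 1)) ∉ Gam (c i) ρ) ∧
  Pool.Agent.H82.KL.Transv (fun i => Gam (c i) ρ)

/-- TVK: `j`-linear restriction in light cone coordinates, level set form, uniformly in the
centres -/
def T_TVK : Prop := ∀ (m j : ℕ) (K c₀ ε : ℝ), 1 ≤ m → 2 ≤ j → 1 ≤ K → 0 < c₀ → 0 < ε →
  ∃ C : ℝ, 0 ≤ C ∧ ∀ (R : ℝ) (c : Fin j → E m) (g : Fin j → ℝ × E m → ℂ) (z₀ : Z m)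
  (Y : Finset (Z m)), 1 ≤ R → CJ K c₀ c → (∀ i, Continuous (g i)) →
  (∀ i ζ, g i ζ ≠ 0 → 1 / 4 ≤ ζ.1 ∧ ζ.1 ≤ 8 ∧ ‖ζ.1⁻¹ • ζ.2 - c i‖ ≤ 5 / (4 * K)) →
  Sep Y → (∀ z ∈ Y, ‖z - z₀‖ ≤ R) → (∀ z ∈ Y, ∀ i, 1 ≤ ‖V (g i) z‖) →
  (Y.card : ℝ) ≤ C * R ^ ε * ∏ i, (∫ ζ, ‖g i ζ‖ ^ 2) ^ (1 / ((j : ℝ) - 1))

/-- FLK: functions with frequencies in the `ρ`-neighbourhood of the cone, in balls of radius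
`R ≤ D / ρ` -/
def T_FLK : Prop := ∀ (m j : ℕ) (K c₀ ε D : ℝ), 1 ≤ m → 2 ≤ j → 1 ≤ K → 0 < c₀ → 0 < ε → 0 < D →
  ∃ C : ℝ, 0 ≤ C ∧ ∀ (R ρ H : ℝ) (c : Fin j → E m) (G : Fin j → Z m → ℂ) (z₀ : Z m)
  (Y : Finset (Z m)), 1 ≤ R → 0 < ρ → ρ * R ≤ D → 0 < H → CJ K c₀ c → (∀ i, TC (G i)) →
  (∀ i ζ, G i ζ ≠ 0 → 1 / 4 ≤ ζ.1 ∧ ζ.1 ≤ 8 ∧ ‖ζ.1⁻¹ • ζ.2.1 - c i‖ ≤ 5 / (4 * K) ∧
    |ζ.2.2 - ‖ζ.2.1‖ ^ 2 / ζ.1| ≤ ρ) →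
  Sep Y → (∀ z ∈ Y, ‖z - z₀‖ ≤ R) → (∀ z ∈ Y, ∀ i, H ≤ ‖TF (G i) z‖) →
  (Y.card : ℝ) ≤ C * R ^ ε * ∏ i, (ρ * (∫ ζ, ‖G i ζ‖ ^ 2) / H ^ 2) ^ (1 / ((j : ℝ) - 1))

open scoped Classical in
/-- C4Q: four-linear restriction in the cubes of side `R^{1/2}`, four families of wave packets -/
def T_C4Q : Prop := ∀ (m L : ℕ) (β : E m → ℂ) (Ψ Ξ : Z m → ℂ) (ψ χ : Z m → ℝ)
  (K c₀ δ b₀ B : ℝ), 1 ≤ m → IsPU β → IsPsi Ψ ψ → IsLow Ξ χ → 1 ≤ K → 0 < c₀ → 0 < δ →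
  δ ≤ 1 / 100 → 0 < b₀ → 1 ≤ B → ∀ N : ℕ, m + 3 ≤ N → ∃ C : ℝ, 1 ≤ C ∧ ∀ (κ R r A H : ℝ)
  (G : Fin 4 → Z m → ℂ) (c : Fin 4 → E m) (S : Fin 4 → Finset (Pk m)) (a b M : Fin 4 → ℝ)
  (QQ : Finset (Zi m)) (l k : Fin 4 → ℕ) (X : Finset (Z m)), 0 ≤ κ → κ ≤ 3 / 8 →
  1 ≤ R → C ≤ R ^ δ → 0 < A → 0 < H → b₀ * A ≤ R ^ δ * H → CJ K c₀ c →
  (∀ i, 0 < a i ∧ 1 ≤ b i ∧ 0 < M i) → (∀ i, Cls L κ R A (G i)) → Sep X →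
  (∀ i, ∀ W ∈ S i, W.1 ∈ Ks m (sR R) ∧ ‖ctr (sR R) W.1 - c i‖ ≤ 1 / K + sR R ∧
    al N β R δ (G i) W ≤ 2 * a i) →
  (∀ i, ((S i).card : ℝ) ≤ B * R ^ (2 * ((m : ℝ) + 2))) →
  (∀ i, ∀ W ∈ S i, (((S i).filter (fun W' => tb R W' = tb R W)).card : ℝ) ≤ 2 * b i) →
  (∀ i, ∀ z ∈ X, ((((S i).image (tb R)).filter (fun T => Inc R δ T (cb (Real.sqrt R) z) ∧
    Sh QQ R r δ (l i) (k i) T (bl R r (cb (Real.sqrt R) z)))).card : ℝ) ≤ 2 * M i) →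
  (∀ i, ∀ z ∈ X, H ≤ ‖∑ W ∈ SB QQ R r δ (l i) (k i) (S i) (bl R r (cb (Real.sqrt R) z)),
    Fp β ψ R δ (G i) W z‖) →
  (X.card : ℝ) * H ^ (8 / 3 : ℝ) ≤ C * R ^ (2 * lo m * δ) * (X.image (cb (Real.sqrt R))).card *
    ∏ i, (M i * b i * a i ^ 2 * R ^ ((m : ℝ) / 2)) ^ (1 / 3 : ℝ)

/-- SUQ: supremum of sums of wave packets -/
def T_SUQ : Prop := ∀ (m L N : ℕ) (β : E m → ℂ) (Ψ : Z m → ℂ) (ψ : Z m → ℝ) (δ : ℝ), IsPU β →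
  IsPsi Ψ ψ → 0 < δ → δ ≤ 1 / 100 → m + 3 ≤ N → ∃ C : ℝ, 1 ≤ C ∧ ∀ (κ R A : ℝ) (G : Z m → ℂ)
  (S : Finset (Pk m)) (z : Z m), 0 ≤ κ → κ ≤ 3 / 8 → 1 ≤ R → 0 < A → Cls L κ R A G →
  (∀ W ∈ S, W.1 ∈ Ks m (sR R)) →
  ‖∑ W ∈ S, Fp β ψ R δ G W z‖ ≤ C * R ^ (lo m * δ) * A * R ^ ((m : ℝ) / 2)

end Pool.Agent.H94.M4
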